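import Pool.Agent.Helper4.PH.Fix

/-!
# The two theorems: average over the second entries
-/

set_option autoImplicit false

namespace Pool.Agent.Helper4.PH

open Pool.Agent.Helper19.NF Pool.Agent.Helper74.NE Pool.Agent.Helper96.PH
open Pool.Agent.Helper74.NW
open Pool.Agent.Helper74.NS (Expands)

variable {n d m : ℕ} {B G : Type} [AddCommGroup B] [AddCommGroup G] [NeZero m] {S : ℕ}

/-- The error. -/
noncomputable def err (B G : Type) (n d m a R w S : ℕ) (ε : ℝ) : ℝ :=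
  ((R + 1) * (n * m)) ^ 2 / Nat.card B + Nat.card G * 2 ^ (w + 1) / Real.sqrt (Nat.card B) +
    R * n.choose a * ((d * m) ^ a) ^ 2 * (S : ℝ) ^ 3 * (2 / (1 + ε / 2) ^ (a * m)) +
    2 * (S * (d * m + 1) ^ n) ^ (w + 1) * (Nat.card B : ℝ) ^ (-((n - (w + 1) * a : ℕ) * m : ℝ) / 2 ^ (w + 2))

/-- The statement of P1. -/
def Bns (B G : Type) [AddCommGroup B] [Fintype B] [AddCommGroup G] [Fintype G] (w : ℕ) : Prop :=
  (Nat.card {γ : B → G // ¬ ∀ (ι : Type) [Fintype ι],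
      CB γ ι w ((Fintype.card B : ℝ) ^ (-(Fintype.card ι : ℝ) / 2 ^ (w + 2)))} : ℝ) ≤
    Fintype.card G * 2 ^ (w + 1) / Real.sqrt (Fintype.card B) * Nat.card (B → G)

/-- The statement of P6 for one program. -/
def Sound (B G : Type) [AddCommGroup B] [AddCommGroup G] [Fintype B] [Fintype G] (n d m S : ℕ) [NeZero m] : Prop :=
  ∀ (P : NProg B (Fin d × Fin m → B) G S) (g : Fin d → Equiv.Perm (Fin n)) (x0 : Fin n × Fin m → B)
    {R T a w N : ℕ} {δ E : ℝ}
    (_ : DP B (Fin a × Fin m) T δ) (_ : 1 ≤ a) (_ : Expands g a) (_ : S ≤ 2 ^ R) (γ : B → G) (_ : 0 ≤ E)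
    (_ : N + (w + 1) * a ≤ n) (_ : ∀ p, N ≤ p → CB γ (Fin p × Fin m) w E)
    (_ : ∀ I l z, P.Ends I l z → z = gout g x0 R γ I),
    (Nat.card {I : B → Fin d × Fin m → B // CF (fine g) x0 R I ∧ (∃ l z, P.Ends I l z) ∧
        ∀ l z, P.Shortest I l z → Cut T (w + 1) l} : ℝ) ≤
      (R * n.choose a * ((d * m) ^ a) ^ 2 * (S : ℝ) ^ 3 * δ + 2 * (S * (d * m + 1) ^ n) ^ (w + 1) * E) *
        Nat.card (B → Fin d × Fin m → B)

/-- The statement of P7. -/
def Unb (B G : Type) [AddCommGroup B] [AddCommGroup G] [Fintype B] [Fintype G] (n d m S : ℕ) [NeZero m] : Prop :=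
  ∀ (P : NProg B (Fin d × Fin m → B) G S) (_ : Unamb P)
    (g : Fin d → Equiv.Perm (Fin n)) (x0 : Fin n × Fin m → B) {R T a w N : ℕ} {δ E : ℝ}
    (_ : DP B (Fin a × Fin m) T δ) (_ : 1 ≤ a) (_ : Expands g a) (_ : S ≤ 2 ^ R) (γ : B → G) (_ : 0 ≤ E)
    (_ : N + (w + 1) * a ≤ n) (_ : ∀ p, N ≤ p → CB γ (Fin p × Fin m) w E),
    (Nat.card {I : B → Fin d × Fin m → B // CF (fine g) x0 R I ∧ ∃ l, P.Ends I l (gout g x0 R γ I) ∧
        Cut T (w + 1) l} : ℝ) ≤
      Nat.card {I : B → Fin d × Fin m → B // ∃ l z, P.Ends I l z ∧ Cut T (w + 1) l} / Fintype.card G +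
        (R * n.choose a * ((d * m) ^ a) ^ 2 * (S : ℝ) ^ 3 * δ + (S * (d * m + 1) ^ n) ^ (w + 1) * E) *
          Nat.card (B → Fin d × Fin m → B)

/-- The hitting lemma with the density `1 - ε`. -/
theorem dp_eps [Fintype B] {a T : ℕ} {ε : ℝ} (hε : 0 ≤ ε) (hT : (T : ℝ) ≤ (1 - ε) * Nat.card B) :
    DP B (Fin a × Fin m) T (2 / (1 + ε / 2) ^ (a * m)) := by
  have hk0 : 0 < Nat.card B := Nat.card_pos
  have hk : (0 : ℝ) < Nat.card B := by exact_mod_cast hk0
  have hT1 : (T : ℝ) ≤ Nat.card B := by nlinarith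
  have hT2 : T ≤ Nat.card B := by exact_mod_cast hT1
  have h1 := dp (B := B) (ι := Fin a × Fin m) hT2 rfl
  intro x Z₁ Z₂
  refine (h1 x Z₁ Z₂).trans (mul_le_mul_of_nonneg_right ?_ (Nat.cast_nonneg _))
  rw [Nat.card_eq_fintype_card (α := Fin a × Fin m), Fintype.card_prod, Fintype.card_fin, Fintype.card_fin]
  have h2 : (T : ℝ) / Nat.card B ≤ 1 - ε := by rw [div_le_iff₀ hk]; exact hT
  have h3 : (0 : ℝ) ≤ (T : ℝ) / Nat.card B := by positivity
  have h4 : 2 / (3 - (T : ℝ) / Nat.card B) ≤ 1 / (1 + ε / 2) := by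
    rw [div_le_div_iff₀ (by linarith) (by linarith)]
    linarith
  have h5 : (0 : ℝ) ≤ 2 / (3 - (T : ℝ) / Nat.card B) := div_nonneg (by norm_num) (by linarith)
  calc 2 * (2 / (3 - (T : ℝ) / Nat.card B)) ^ (a * m) ≤ 2 * (1 / (1 + ε / 2)) ^ (a * m) := by gcongr
    _ = 2 / (1 + ε / 2) ^ (a * m) := by rw [div_pow, one_pow, mul_one_div]

theorem nonempty_dir {g : Fin d → Equiv.Perm (Fin n)} {a w : ℕ} (ha : 1 ≤ a) (hX : Expands g a)
    (hn : (w + 1) * a ≤ n) : Nonempty (Fin d × Fin m) := by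
  by_contra hno
  have hd : IsEmpty (Fin d) := by
    rw [not_nonempty_iff, isEmpty_prod] at hno
    rcases hno with h | h
    · exact h
    · exact (h.false (0 : Fin m)).elim
  have h1 := hX Finset.univ (by rw [Finset.card_univ, Fintype.card_fin]; nlinarith)
  have h2 : (Finset.univ.filter (fun v : Fin n => ∃ s, ∃ u ∈ (Finset.univ : Finset (Fin n)), g s u = v)) = ∅ := by
    rw [Finset.filter_eq_empty_iff]
    rintro v - ⟨s, _⟩
    exact hd.false s
  rw [h2, Finset.card_empty] at h1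
  omega

/-- P8a: the nondeterministic theorem. -/
theorem sound_main_of [Fintype B] [Fintype G] (P : NProg B ((Fin d × Fin m → B) × G) G S)
    (g : Fin d → Equiv.Perm (Fin n)) (x0 : Fin n × Fin m → B)
    (h0 : Function.Injective x0) {R T a w : ℕ} (hbns : Bns B G w) (hs : Sound B G n d m S) {ε : ℝ} (hε : 0 ≤ ε)
    (hT : (T : ℝ) ≤ (1 - ε) * Nat.card B) (ha : 1 ≤ a) (hX : Expands g a) (hS : S ≤ 2 ^ R) (hn : (w + 1) * a ≤ n)
    (hP : ∀ J l z, P.Ends J l z → z = out g x0 R J) :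
    (Nat.card {J : B → (Fin d × Fin m → B) × G // (∃ l z, P.Ends J l z) ∧
        ∀ l z, P.Shortest J l z → Cut T (w + 1) l} : ℝ) ≤
      err B G n d m a R w S ε * Nat.card (B → (Fin d × Fin m → B) × G) := by
  classical
  have hd := nonempty_dir (m := m) ha hX hn
  have h1 := core g x0 h0 (R := R) (w := w) hd
    (A := R * n.choose a * ((d * m) ^ a) ^ 2 * (S : ℝ) ^ 3 * (2 / (1 + ε / 2) ^ (a * m))) (by positivity)
    (n - (w + 1) * a) (K := 2 * (S * (d * m + 1) ^ n) ^ (w + 1)) (by positivity)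
    (fun γ I => (∃ l z, (fix P γ).Ends I l z) ∧ ∀ l z, (fix P γ).Shortest I l z → Cut T (w + 1) l)
    (fun _ => 0) (fun _ => le_rfl) hbns (fun γ E hE hq => by
      rw [zero_add]
      exact hs (fix P γ) g x0 (dp_eps hε hT) ha hX hS γ hE (N := n - (w + 1) * a) (by omega) hq
        (fun I l z h => hP _ l z (ends_fix.1 h)))
  rw [Finset.sum_const_zero, zero_add] at h1
  rw [card_split]
  push_cast
  unfold err
  refine le_trans (le_of_eq (Finset.sum_congr rfl fun γ _ => ?_)) h1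
  simp only [ends_fix, shortest_fix]

/-- P8b: the theorem for unambiguous programs. -/
theorem unamb_main_of [Fintype B] [Fintype G] (P : NProg B ((Fin d × Fin m → B) × G) G S) (hP : Unamb P)
    (g : Fin d → Equiv.Perm (Fin n)) (x0 : Fin n × Fin m → B)
    (h0 : Function.Injective x0) {R T a w : ℕ} (hbns : Bns B G w) (hs : Unb B G n d m S) {ε : ℝ} (hε : 0 ≤ ε)
    (hT : (T : ℝ) ≤ (1 - ε) * Nat.card B) (ha : 1 ≤ a) (hX : Expands g a) (hS : S ≤ 2 ^ R) (hn : (w + 1) * a ≤ n) :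
    (Nat.card {J : B → (Fin d × Fin m → B) × G // ∃ l, P.Ends J l (out g x0 R J) ∧ Cut T (w + 1) l} : ℝ) ≤
      Nat.card {J : B → (Fin d × Fin m → B) × G // ∃ l z, P.Ends J l z ∧ Cut T (w + 1) l} / Fintype.card G +
        err B G n d m a R w S ε * Nat.card (B → (Fin d × Fin m → B) × G) := by
  classical
  have hd := nonempty_dir (m := m) ha hX hn
  have h1 := core g x0 h0 (R := R) (w := w) hd
    (A := R * n.choose a * ((d * m) ^ a) ^ 2 * (S : ℝ) ^ 3 * (2 / (1 + ε / 2) ^ (a * m))) (by positivity)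
    (n - (w + 1) * a) (K := 2 * (S * (d * m + 1) ^ n) ^ (w + 1)) (by positivity)
    (fun γ I => ∃ l, (fix P γ).Ends I l (gout g x0 R γ I) ∧ Cut T (w + 1) l)
    (fun γ => (Nat.card {I : B → Fin d × Fin m → B // ∃ l z, (fix P γ).Ends I l z ∧ Cut T (w + 1) l} : ℝ) /
      Fintype.card G) (fun _ => by positivity) hbns (fun γ E hE hq => by
      refine (hs (fix P γ) (unamb_fix hP γ) g x0 (dp_eps hε hT) ha hX hS γ hE (N := n - (w + 1) * a) (by omega)
        hq).trans ?_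
      have h2 : (S * (d * m + 1) ^ n : ℝ) ^ (w + 1) * E ≤ 2 * (S * (d * m + 1) ^ n) ^ (w + 1) * E := by
        have : (0 : ℝ) ≤ (S * (d * m + 1) ^ n) ^ (w + 1) * E := by positivity
        linarith
      gcongr)
  rw [← Finset.sum_div] at h1
  rw [card_split (fun J => ∃ l, P.Ends J l (out g x0 R J) ∧ Cut T (w + 1) l),
    card_split (fun J => ∃ l z, P.Ends J l z ∧ Cut T (w + 1) l)]
  push_cast
  unfold err
  refine le_trans (le_of_eq (Finset.sum_congr rfl fun γ _ => ?_)) (h1.trans (le_of_eq ?_))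
  · simp only [ends_fix]
    rfl
  · simp only [ends_fix]

end Pool.Agent.Helper4.PH
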