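import Pool.Agent.Helper84.PH.Defs

open scoped Manifold ContDiff Topology
open Set Filter

noncomputable section

namespace HolPH

theorem iter_smul (A : C2 ≃ₗ[ℂ] C2) (j : ℕ) (c : ℂ) (a : C2) :
    (A : C2 → C2)^[j] (c • a) = c • (A : C2 → C2)^[j] a := by
  induction j with
  | zero => rfl
  | succ j ih => rw [Function.iterate_succ_apply', Function.iterate_succ_apply', ih, map_smul]

/-- The vectors with a bounded two-sided orbit under `A` form a complex subspace. -/
def bddOrbit (A : C2 ≃ₗ[ℂ] C2) : Submodule ℂ C2 where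
  carrier := {w | ∃ C : ℝ, ∀ j : ℕ, ‖(A : C2 → C2)^[j] w‖ ≤ C ∧ ‖(A.symm : C2 → C2)^[j] w‖ ≤ C}
  zero_mem' := by
    refine ⟨0, fun j => ⟨?_, ?_⟩⟩
    · rw [Function.iterate_fixed (map_zero A)]; simp
    · rw [Function.iterate_fixed (map_zero A.symm)]; simp
  add_mem' := by
    rintro a b ⟨C, hC⟩ ⟨D, hD⟩
    refine ⟨C + D, fun j => ⟨?_, ?_⟩⟩
    · have h : (A : C2 → C2)^[j] (a + b) = (A : C2 → C2)^[j] a + (A : C2 → C2)^[j] b :=
        iterate_map_add A j a b
      rw [h]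
      exact (norm_add_le _ _).trans (add_le_add (hC j).1 (hD j).1)
    · have h : (A.symm : C2 → C2)^[j] (a + b)
          = (A.symm : C2 → C2)^[j] a + (A.symm : C2 → C2)^[j] b :=
        iterate_map_add A.symm j a b
      rw [h]
      exact (norm_add_le _ _).trans (add_le_add (hC j).2 (hD j).2)
  smul_mem' := by
    rintro c a ⟨C, hC⟩
    refine ⟨‖c‖ * C, fun j => ⟨?_, ?_⟩⟩
    · have h : (A : C2 → C2)^[j] (c • a) = c • (A : C2 → C2)^[j] a :=
        iter_smul A j c a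
      rw [h, norm_smul]
      exact mul_le_mul_of_nonneg_left (hC j).1 (norm_nonneg _)
    · have h : (A.symm : C2 → C2)^[j] (c • a) = c • (A.symm : C2 → C2)^[j] a :=
        iter_smul A.symm j c a
      rw [h, norm_smul]
      exact mul_le_mul_of_nonneg_left (hC j).2 (norm_nonneg _)

theorem bddOrbit_map (A : C2 ≃ₗ[ℂ] C2) {w : C2} (hw : w ∈ bddOrbit A) : A w ∈ bddOrbit A := by
  obtain ⟨C, hC⟩ := hw
  refine ⟨C, fun j => ⟨?_, ?_⟩⟩
  · have := (hC (j + 1)).1
    rwa [Function.iterate_succ_apply] at this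
  · cases j with
    | zero => simpa using (hC 1).1
    | succ j =>
      have := (hC j).2
      rw [Function.iterate_succ_apply, A.symm_apply_apply]
      exact this

theorem norm_le_one_of_pow_le {r c C : ℝ} (hc : 0 < c)
    (h : ∀ j : ℕ, r ^ j * c ≤ C) : r ≤ 1 := by
  by_contra hlt
  push Not at hlt
  obtain ⟨j, hj⟩ := pow_unbounded_of_one_lt (C / c) hlt
  have := h j
  rw [div_lt_iff₀ hc] at hj
  linarith

/-- EX2a'.  linear algebra: a vector with bounded two-sided orbit under a linear automorphism of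
`ℂ²` without eigenvalues of modulus one is zero. -/
theorem eq_zero_of_bounded_orbit (A : C2 ≃ₗ[ℂ] C2)
    (hA : ∀ μ : ℂ, Module.End.HasEigenvalue (A : C2 →ₗ[ℂ] C2) μ → ‖μ‖ ≠ 1) (w : C2) (C : ℝ)
    (h1 : ∀ j : ℕ, ‖(A : C2 → C2)^[j] w‖ ≤ C) (h2 : ∀ j : ℕ, ‖(A.symm : C2 → C2)^[j] w‖ ≤ C) :
    w = 0 := by
  by_contra hw0
  have hw : w ∈ bddOrbit A := ⟨C, fun j => ⟨h1 j, h2 j⟩⟩
  have : Nontrivial (bddOrbit A) := ⟨⟨⟨w, hw⟩, 0, fun h => hw0 (congrArg Subtype.val h)⟩⟩
  let T : bddOrbit A →ₗ[ℂ] bddOrbit A :=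
    (A : C2 →ₗ[ℂ] C2).restrict (fun x hx => bddOrbit_map A hx)
  obtain ⟨μ, hμ⟩ := Module.End.exists_eigenvalue T
  obtain ⟨v, hv⟩ := hμ.exists_hasEigenvector
  have hv0 : (v : C2) ≠ 0 := fun h => hv.2 (Subtype.ext h)
  have hAv : A (v : C2) = μ • (v : C2) := by
    have := congrArg Subtype.val hv.apply_eq_smul
    simpa [T] using this
  have hμA : Module.End.HasEigenvalue (A : C2 →ₗ[ℂ] C2) μ := by
    apply Module.End.hasEigenvalue_of_hasEigenvector (x := (v : C2))
    exact ⟨Module.End.mem_eigenspace_iff.mpr hAv, hv0⟩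
  have hμ0 : μ ≠ 0 := by
    rintro rfl
    rw [zero_smul] at hAv
    exact hv0 (by simpa using hAv)
  have hAsv : A.symm (v : C2) = μ⁻¹ • (v : C2) := by
    rw [LinearEquiv.symm_apply_eq, map_smul, hAv, smul_smul, inv_mul_cancel₀ hμ0, one_smul]
  have e1 : ∀ j : ℕ, (A : C2 → C2)^[j] (v : C2) = μ ^ j • (v : C2) := by
    intro j
    induction j with
    | zero => simp
    | succ j ih =>
      rw [Function.iterate_succ_apply', ih, map_smul, hAv, smul_smul, pow_succ]
  have e2 : ∀ j : ℕ, (A.symm : C2 → C2)^[j] (v : C2) = μ⁻¹ ^ j • (v : C2) := by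
    intro j
    induction j with
    | zero => simp
    | succ j ih =>
      rw [Function.iterate_succ_apply', ih, map_smul, hAsv, smul_smul, pow_succ]
  obtain ⟨D, hD⟩ := v.2
  have hvn : 0 < ‖(v : C2)‖ := norm_pos_iff.mpr hv0
  have l1 : ‖μ‖ ≤ 1 := by
    apply norm_le_one_of_pow_le hvn (C := D)
    intro j
    have := (hD j).1
    rwa [e1, norm_smul, norm_pow] at this
  have l2 : ‖μ⁻¹‖ ≤ 1 := by
    apply norm_le_one_of_pow_le hvn (C := D)
    intro j
    have := (hD j).2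
    rwa [e2, norm_smul, norm_pow] at this
  rw [norm_inv, inv_le_one_iff₀] at l2
  rcases l2 with l2 | l2
  · exact absurd l2 (not_le.mpr (norm_pos_iff.mpr hμ0))
  · exact hA μ hμA (le_antisymm l1 l2)

end HolPH
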