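import Pool.Agent.Helper96.PH.Defs
import Pool.Agent.Helper60.NW.Cf
import Pool.Agent.Helper74.NE.Num

/-!
# Programs for fixed second entries, and the average over the second entries
-/

set_option autoImplicit false

namespace Pool.Agent.Helper4.PH

open Pool.Agent.Helper19.NF Pool.Agent.Helper74.NE Pool.Agent.Helper96.PH
open Pool.Agent.Helper74.NW
open Pool.Agent.Helper74.NS (Expands)

section fix

variable {C W Z G : Type} {S : ℕ} {P : NProg C (W × G) Z S} {γ : C → G} {I : C → W}

theorem act_inr {s : Fin S} {z : Z} : (fix P γ).act s = Sum.inr z ↔ P.act s = Sum.inr z := by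
  show (P.act s).map _ id = Sum.inr z ↔ _
  rcases P.act s with t | z' <;> simp

theorem run_of_fix {s t : Fin S} {l : List C} (h : (fix P γ).Run I s l t) :
    P.Run (fun b => (I b, γ b)) s l t := by
  induction h with
  | nil s => exact NProg.Run.nil s
  | cons s s' t c next l h1 h2 _ ih =>
    have h1' : (P.act s).map (fun t => (t.1, fun x => t.2 (x, γ t.1))) id = Sum.inl (c, next) := h1
    rcases h3 : P.act s with ⟨c', next'⟩ | z
    · rw [h3, Sum.map_inl, Sum.inl.injEq, Prod.mk.injEq] at h1'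
      obtain ⟨h4, h5⟩ := h1'
      have h4 : c' = c := h4
      subst h4
      subst h5
      exact NProg.Run.cons s s' t c' next' l h3 h2 ih
    · rw [h3] at h1'
      simp at h1'

theorem fix_of_run {s t : Fin S} {l : List C} {J : C → W × G} (hJ : J = fun b => (I b, γ b)) (h : P.Run J s l t) :
    (fix P γ).Run I s l t := by
  subst hJ
  induction h with
  | nil s => exact NProg.Run.nil s
  | cons s s' t c next l h1 h2 _ ih =>
    refine NProg.Run.cons s s' t c (fun x => next (x, γ c)) l ?_ h2 ih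
    show (P.act s).map (fun t => (t.1, fun x => t.2 (x, γ t.1))) id = _
    rw [h1]
    rfl

theorem run_fix {s t : Fin S} {l : List C} :
    (fix P γ).Run I s l t ↔ P.Run (fun b => (I b, γ b)) s l t := ⟨run_of_fix, fix_of_run rfl⟩

theorem ends_fix {l : List C} {z : Z} : (fix P γ).Ends I l z ↔ P.Ends (fun b => (I b, γ b)) l z := by
  unfold NProg.Ends
  refine exists_congr fun t => ?_
  rw [act_inr]
  exact and_congr_left fun _ => run_fix

theorem shortest_fix {l : List C} {z : Z} : (fix P γ).Shortest I l z ↔ P.Shortest (fun b => (I b, γ b)) l z := by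
  unfold NProg.Shortest
  rw [ends_fix]
  refine and_congr_right fun _ => ?_
  refine forall_congr' fun l' => forall_congr' fun z' => ?_
  rw [ends_fix]

theorem unamb_fix (h : Unamb P) (γ : C → G) : Unamb (fix P γ) := by
  intro I a a' b b' q q' t t' z z' h1 h2 h3 h4 h5 h6 h7
  exact h (fun b => (I b, γ b)) a a' b b' q q' t t' z z' (run_fix.1 h1) (run_fix.1 h2) (act_inr.1 h3) (run_fix.1 h4)
    (run_fix.1 h5) (act_inr.1 h6) h7

end fix

/-- The number of inputs is the sum over the second entries. -/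
theorem card_split {B W G : Type} [Fintype B] [DecidableEq B] [Finite W] [Fintype G] (p : (B → W × G) → Prop) :
    Nat.card {J // p J} = ∑ γ : B → G, Nat.card {I : B → W // p fun b => (I b, γ b)} := by
  rw [← Nat.card_sigma]
  exact Nat.card_congr
    { toFun := fun J => ⟨fun b => (J.1 b).2, fun b => (J.1 b).1, J.2⟩
      invFun := fun x => ⟨fun b => (x.2.1 b, x.1 b), x.2.2⟩
      left_inv := fun J => rfl
      right_inv := fun x => rfl }

theorem card_all (B W G : Type) [Finite B] [Finite W] [Finite G] :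
    Nat.card (B → W × G) = Nat.card (B → G) * Nat.card (B → W) := by
  rw [← Nat.card_prod]
  exact Nat.card_congr
    { toFun := fun J => (fun b => (J b).2, fun b => (J b).1)
      invFun := fun x b => (x.2 b, x.1 b)
      left_inv := fun J => rfl
      right_inv := fun x => rfl }

/-- The average of numbers which are small except for few indices. -/
theorem avg {Γ : Type} [Fintype Γ] (f : Γ → ℝ) (bad : Γ → Prop) (N x β : ℝ) (hN : 0 ≤ N) (hx : 0 ≤ x)
    (h1 : ∀ γ, f γ ≤ N) (h2 : ∀ γ, ¬ bad γ → f γ ≤ x * N) (hb : (Nat.card {γ // bad γ} : ℝ) ≤ β * Nat.card Γ) :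
    ∑ γ, f γ ≤ (β + x) * (Nat.card Γ * N) := by
  classical
  have h3 : ∀ γ, f γ ≤ (if bad γ then N else 0) + x * N := by
    intro γ
    have h4 : 0 ≤ x * N := mul_nonneg hx hN
    by_cases h : bad γ
    · rw [if_pos h]
      linarith [h1 γ]
    · rw [if_neg h]
      linarith [h2 γ h]
  have h4 : ∑ γ, (if bad γ then N else 0) = Nat.card {γ // bad γ} * N := by
    rw [← Finset.sum_filter, Finset.sum_const, nsmul_eq_mul, Nat.card_eq_fintype_card, Fintype.card_subtype]
  calc ∑ γ, f γ ≤ ∑ γ, ((if bad γ then N else 0) + x * N) := Finset.sum_le_sum fun γ _ => h3 γ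
    _ = Nat.card {γ // bad γ} * N + Nat.card Γ * (x * N) := by
        rw [Finset.sum_add_distrib, h4, Finset.sum_const, Finset.card_univ, nsmul_eq_mul, Nat.card_eq_fintype_card (α := Γ)]
    _ ≤ β * Nat.card Γ * N + Nat.card Γ * (x * N) := by
        have := mul_le_mul_of_nonneg_right hb hN
        linarith
    _ = _ := by ring

variable {n d m : ℕ} {B G : Type} [AddCommGroup B] [AddCommGroup G] [NeZero m]

theorem CB.mono {γ : B → G} {ι : Type} [Fintype ι] {w : ℕ} {E E' : ℝ} (h : CB γ ι w E) (hE : E ≤ E') :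
    CB γ ι w E' := by
  intro x C hC a
  refine (h x C hC a).trans ?_
  have := mul_le_mul_of_nonneg_right hE (Nat.cast_nonneg (α := ℝ) (Nat.card (Fin (w + 1) → ι → B)))
  linarith

/-- The common part of both theorems. -/
theorem core [Fintype B] [Fintype G] [DecidableEq B] (g : Fin d → Equiv.Perm (Fin n)) (x0 : Fin n × Fin m → B)
    (h0 : Function.Injective x0) {R w : ℕ} (hd : Nonempty (Fin d × Fin m)) {A : ℝ} (hA : 0 ≤ A) (N₀ : ℕ) {K : ℝ}
    (hK : 0 ≤ K) (p : (B → G) → (B → Fin d × Fin m → B) → Prop) (r : (B → G) → ℝ) (hr : ∀ γ, 0 ≤ r γ)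
    (hbns : (Nat.card {γ : B → G // ¬ ∀ (ι : Type) [Fintype ι],
        CB γ ι w ((Fintype.card B : ℝ) ^ (-(Fintype.card ι : ℝ) / 2 ^ (w + 2)))} : ℝ) ≤
      Fintype.card G * 2 ^ (w + 1) / Real.sqrt (Fintype.card B) * Nat.card (B → G))
    (h : ∀ (γ : B → G) (E : ℝ), 0 ≤ E → (∀ q, N₀ ≤ q → CB γ (Fin q × Fin m) w E) →
      (Nat.card {I : B → Fin d × Fin m → B // CF (fine g) x0 R I ∧ p γ I} : ℝ) ≤
        r γ + (A + K * E) * Nat.card (B → Fin d × Fin m → B)) :
    ∑ γ, (Nat.card {I : B → Fin d × Fin m → B // p γ I} : ℝ) ≤ ∑ γ, r γ +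
      (((R + 1) * (n * m)) ^ 2 / Nat.card B + Nat.card G * 2 ^ (w + 1) / Real.sqrt (Nat.card B) + A +
        K * (Nat.card B : ℝ) ^ (-((N₀ : ℕ) * m : ℝ) / 2 ^ (w + 2))) *
          Nat.card (B → (Fin d × Fin m → B) × G) := by
  classical
  have hk0 : 0 < Fintype.card B := Fintype.card_pos_iff.2 ⟨0⟩
  have hk : (1 : ℝ) ≤ Fintype.card B := by exact_mod_cast hk0
  have hkR : (0 : ℝ) < Fintype.card B := by linarith
  rw [card_all, Nat.card_eq_fintype_card (α := B), Nat.card_eq_fintype_card (α := G)]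
  set E : ℝ := (Fintype.card B : ℝ) ^ (-((N₀ : ℕ) * m : ℝ) / 2 ^ (w + 2)) with hE
  set N : ℝ := (Nat.card (B → Fin d × Fin m → B) : ℝ) with hN
  have hE0 : 0 ≤ E := Real.rpow_nonneg hkR.le _
  have hN0 : 0 ≤ N := Nat.cast_nonneg _
  have hKE : 0 ≤ K * E := mul_nonneg hK hE0
  have hq0 : (0 : ℝ) ≤ ((R + 1) * (n * m)) ^ 2 / Fintype.card B := by positivity
  have h1 := avg (f := fun γ => (Nat.card {I : B → Fin d × Fin m → B // p γ I} : ℝ) - r γ)
    (bad := fun γ : B → G => ¬ ∀ (ι : Type) [Fintype ι],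
        CB γ ι w ((Fintype.card B : ℝ) ^ (-(Fintype.card ι : ℝ) / 2 ^ (w + 2)))) N
    (((R + 1) * (n * m)) ^ 2 / Fintype.card B + (A + K * E))
    (Fintype.card G * 2 ^ (w + 1) / Real.sqrt (Fintype.card B)) hN0 (by linarith) (fun γ => ?_) (fun γ hγ => ?_) hbns
  · rw [Finset.sum_sub_distrib] at h1
    push_cast
    linarith
  · have h2 : (Nat.card {I : B → Fin d × Fin m → B // p γ I} : ℝ) ≤ N := by
      rw [hN]
      exact_mod_cast Nat.card_le_card_of_injective (fun I : {I : B → Fin d × Fin m → B // p γ I} => I.1)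
        Subtype.val_injective
    have := hr γ
    show (Nat.card {I : B → Fin d × Fin m → B // p γ I} : ℝ) - r γ ≤ N
    linarith
  · rw [not_not] at hγ
    have h2 : ∀ q, N₀ ≤ q → CB γ (Fin q × Fin m) w E := by
      intro q hq
      refine CB.mono (hγ (Fin q × Fin m)) ?_
      rw [hE]
      refine Real.rpow_le_rpow_of_exponent_le hk ?_
      rw [Fintype.card_prod, Fintype.card_fin, Fintype.card_fin, neg_div, neg_div, neg_le_neg_iff]
      push_cast
      have : (N₀ : ℝ) ≤ q := by exact_mod_cast hq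
      gcongr
    have h3 := h γ E hE0 h2
    have h4 : (Nat.card {I : B → Fin d × Fin m → B // ¬ CF (fine g) x0 R I} : ℝ) ≤
        ((R + 1) * (n * m)) ^ 2 / Fintype.card B * N := by
      have h5 := Pool.Agent.Helper60.NWF.card_not_CF (D := Fin d × Fin m) (fine g) x0 h0 R
      rw [Fintype.card_prod, Fintype.card_fin, Fintype.card_fin] at h5
      have h6 : (Nat.card {I : B → Fin d × Fin m → B // ¬ CF (fine g) x0 R I} : ℝ) * Fintype.card B ≤
          ((R + 1) * (n * m)) ^ 2 * N := by rw [hN]; exact_mod_cast h5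
      rw [div_mul_eq_mul_div, le_div_iff₀ hkR]
      exact h6
    have h5 : (Nat.card {I : B → Fin d × Fin m → B // p γ I} : ℝ) ≤
        Nat.card {I : B → Fin d × Fin m → B // ¬ CF (fine g) x0 R I} +
          Nat.card {I : B → Fin d × Fin m → B // CF (fine g) x0 R I ∧ p γ I} := by
      have h6 : {I : B → Fin d × Fin m → B | p γ I} ⊆ {I | ¬ CF (fine g) x0 R I} ∪ {I | CF (fine g) x0 R I ∧ p γ I} := by
        intro I hI
        by_cases hc : CF (fine g) x0 R I
        · exact Or.inr ⟨hc, hI⟩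
        · exact Or.inl hc
      have h7 := (Set.ncard_le_ncard h6 (Set.toFinite _)).trans (Set.ncard_union_le _ _)
      exact_mod_cast h7
    show (Nat.card {I : B → Fin d × Fin m → B // p γ I} : ℝ) - r γ ≤ _
    linarith

end Pool.Agent.Helper4.PH
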