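import Pool.Agent.Helper4.PH.Main
import Pool.Agent.Helper18.PH.P1
import Pool.Agent.Helper78.PH.Sum

/-!
# The two theorems
-/

set_option autoImplicit false

namespace Pool.Agent.Helper4.PH

open Pool.Agent.Helper19.NF Pool.Agent.Helper74.NE Pool.Agent.Helper96.PH
open Pool.Agent.Helper74.NW
open Pool.Agent.Helper74.NS (Expands)

variable {n d m : ℕ} {B G : Type} [AddCommGroup B] [AddCommGroup G] [NeZero m] {S : ℕ}

/-- P8a: the nondeterministic theorem. -/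
theorem sound_main [Fintype B] [Fintype G] (hG : 2 ≤ Fintype.card G)
    (P : NProg B ((Fin d × Fin m → B) × G) G S) (g : Fin d → Equiv.Perm (Fin n)) (x0 : Fin n × Fin m → B)
    (h0 : Function.Injective x0) {R T a w : ℕ} {ε : ℝ} (hε : 0 ≤ ε) (hT : (T : ℝ) ≤ (1 - ε) * Nat.card B)
    (ha : 1 ≤ a) (hX : Expands g a) (hS : S ≤ 2 ^ R) (hn : (w + 1) * a ≤ n)
    (hP : ∀ J l z, P.Ends J l z → z = out g x0 R J) :
    (Nat.card {J : B → (Fin d × Fin m → B) × G // (∃ l z, P.Ends J l z) ∧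
        ∀ l z, P.Shortest J l z → Cut T (w + 1) l} : ℝ) ≤
      err B G n d m a R w S ε * Nat.card (B → (Fin d × Fin m → B) × G) :=
  sound_main_of P g x0 h0 (Pool.Agent.Helper18.PH.bns2 B G w)
    (fun P g x0 _ _ _ _ _ _ _ h1 h2 h3 h4 γ h5 h6 h7 h8 =>
      Pool.Agent.Helper78.PH.sound_bound hG P g x0 h1 h2 h3 h4 γ h5 h6 h7 h8) hε hT ha hX hS hn hP

/-- P8b: the theorem for unambiguous programs. -/
theorem unamb_main [Fintype B] [Fintype G]
    (P : NProg B ((Fin d × Fin m → B) × G) G S) (hP : Unamb P) (g : Fin d → Equiv.Perm (Fin n))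
    (x0 : Fin n × Fin m → B) (h0 : Function.Injective x0) {R T a w : ℕ} {ε : ℝ} (hε : 0 ≤ ε)
    (hT : (T : ℝ) ≤ (1 - ε) * Nat.card B) (ha : 1 ≤ a) (hX : Expands g a) (hS : S ≤ 2 ^ R) (hn : (w + 1) * a ≤ n) :
    (Nat.card {J : B → (Fin d × Fin m → B) × G // ∃ l, P.Ends J l (out g x0 R J) ∧ Cut T (w + 1) l} : ℝ) ≤
      Nat.card {J : B → (Fin d × Fin m → B) × G // ∃ l z, P.Ends J l z ∧ Cut T (w + 1) l} / Fintype.card G +
        err B G n d m a R w S ε * Nat.card (B → (Fin d × Fin m → B) × G) :=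
  unamb_main_of P hP g x0 h0 (Pool.Agent.Helper18.PH.bns2 B G w)
    (fun P h0 g x0 _ _ _ _ _ _ _ h1 h2 h3 h4 γ h5 h6 h7 =>
      Pool.Agent.Helper78.PH.unamb_bound P h0 g x0 h1 h2 h3 h4 γ h5 h6 h7) hε hT ha hX hS hn

end Pool.Agent.Helper4.PH
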